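import Mathlib

set_option autoImplicit false
set_option linter.style.haveILetI false

namespace Pool.Agent.H945R3

open Module PowerSeries
open scoped LaurentSeries

/-- Expansion in powers of a uniformiser: a discrete valuation ring containing a field which maps
onto its residue field embeds in the ring of formal power series. -/
theorem exists_digits {k R : Type*} [Field k] [CommRing R] [IsDomain R]
    [IsDiscreteValuationRing R] (ι : k →+* R)
    (h : Function.Surjective ((IsLocalRing.residue R).comp ι)) :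
    ∃ Φ : R →+* k⟦X⟧, Function.Injective Φ ∧ (∀ c, Φ (ι c) = C c) ∧
      ∀ x ∈ IsLocalRing.maximalIdeal R, constantCoeff (Φ x) = 0 := by
  classical
  obtain ⟨ϖ, hϖ⟩ := IsDiscreteValuationRing.exists_irreducible R
  have hm : IsLocalRing.maximalIdeal R = Ideal.span {ϖ} := hϖ.maximalIdeal_eq
  have hϖ0 : ϖ ≠ 0 := hϖ.ne_zero
  let res : k →+* IsLocalRing.ResidueField R := (IsLocalRing.residue R).comp ι
  let E : k ≃+* IsLocalRing.ResidueField R := RingEquiv.ofBijective res ⟨res.injective, h⟩
  let r : R →+* k := (E.symm : IsLocalRing.ResidueField R →+* k).comp (IsLocalRing.residue R)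
  have hr : ∀ c, r (ι c) = c := fun c => by
    change E.symm (res c) = c
    exact E.symm_apply_apply c
  have hrm : ∀ x, r x = 0 ↔ x ∈ IsLocalRing.maximalIdeal R := by
    intro x
    change E.symm (IsLocalRing.residue R x) = 0 ↔ _
    rw [EmbeddingLike.map_eq_zero_iff, IsLocalRing.residue_eq_zero_iff]
  have hD : ∀ x, ∃ y, x = ι (r x) + ϖ * y := by
    intro x
    have : x - ι (r x) ∈ IsLocalRing.maximalIdeal R := by
      rw [← hrm, map_sub, hr, sub_self]
    rw [hm, Ideal.mem_span_singleton] at this
    obtain ⟨y, hy⟩ := this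
    exact ⟨y, by rw [← hy]; ring⟩
  choose D hD using hD
  have hcancel : ∀ {a b : R}, ϖ * a = ϖ * b → a = b := fun h => mul_left_cancel₀ hϖ0 h
  have hDadd : ∀ x y, D (x + y) = D x + D y := by
    intro x y
    apply hcancel
    have h1 := hD (x + y)
    have h2 := hD x
    have h3 := hD y
    rw [map_add, map_add] at h1
    linear_combination h2 + h3 - h1
  have hDι : ∀ c, D (ι c) = 0 := by
    intro c
    apply hcancel
    have h1 := hD (ι c)
    rw [hr] at h1
    linear_combination -h1
  have hDmul : ∀ x y, D (x * y) = D x * y + ι (r x) * D y := by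
    intro x y
    apply hcancel
    have h1 := hD (x * y)
    have h2 := hD x
    have h3 := hD y
    rw [map_mul, map_mul] at h1
    linear_combination y * h2 + ι (r x) * h3 - h1
  have hDzero : D 0 = 0 := by
    have := hDι 0
    rwa [map_zero] at this
  have hDit0 : ∀ n, D^[n] 0 = 0 := fun n => Function.iterate_fixed hDzero n
  have hDitadd : ∀ n x y, D^[n] (x + y) = D^[n] x + D^[n] y := by
    intro n
    induction n with
    | zero => intros; rfl
    | succ n ih => intro x y; rw [Function.iterate_succ_apply, Function.iterate_succ_apply,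
        Function.iterate_succ_apply, hDadd, ih]
  let F : R → k⟦X⟧ := fun x => PowerSeries.mk fun n => r (D^[n] x)
  have hF : ∀ n x, coeff n (F x) = r (D^[n] x) := fun n x => coeff_mk _ _
  have hFι : ∀ c, F (ι c) = C c := by
    intro c
    ext n
    rw [hF]
    cases n with
    | zero => simp [hr]
    | succ n =>
      rw [Function.iterate_succ_apply, hDι, hDit0, map_zero, coeff_C]
      simp
  have hFadd : ∀ x y, F (x + y) = F x + F y := by
    intro x y
    ext n
    rw [map_add, hF, hF, hF, hDitadd, map_add]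
  have hF1 : ∀ x, F x = C (r x) + X * F (D x) := by
    intro x
    ext n
    cases n with
    | zero => simp [hF, F]
    | succ n =>
      rw [hF, map_add, coeff_succ_X_mul, hF, Function.iterate_succ_apply, coeff_C]
      simp
  have hFmulι : ∀ c x, F (ι c * x) = C c * F x := by
    intro c x
    ext n
    rw [coeff_C_mul, hF, hF]
    induction n generalizing x with
    | zero => simp [hr]
    | succ n ih =>
      rw [Function.iterate_succ_apply, Function.iterate_succ_apply, hDmul, hDι, zero_mul,
        zero_add, hr, ih]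
  have hFmul : ∀ x y, F (x * y) = F x * F y := by
    intro x y
    ext n
    induction n generalizing x y with
    | zero =>
      rw [hF]
      simp only [Function.iterate_zero, id, map_mul]
      rw [coeff_zero_eq_constantCoeff_apply, map_mul]
      congr 1
    | succ n ih =>
      have h1 : coeff (n + 1) (F (x * y)) = coeff n (F (D (x * y))) := by
        rw [hF, hF, Function.iterate_succ_apply]
      rw [h1, hDmul, hFadd, map_add, ih, hFmulι]
      conv_rhs => rw [hF1 x, add_mul, map_add, mul_assoc, coeff_succ_X_mul, coeff_C_mul]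
      rw [coeff_C_mul]
      have h2 : coeff (n + 1) (F y) = coeff n (F (D y)) := by
        rw [hF, hF, Function.iterate_succ_apply]
      rw [h2]
      ring
  let Φ : R →+* k⟦X⟧ :=
    { toFun := F
      map_one' := by rw [← map_one ι, hFι, map_one]
      map_mul' := hFmul
      map_zero' := by rw [← map_zero ι, hFι, map_zero]
      map_add' := hFadd }
  refine ⟨Φ, ?_, hFι, ?_⟩
  · rw [injective_iff_map_eq_zero]
    intro x hx
    -- x is divisible by all powers of ϖ
    have hx' : ∀ n, r (D^[n] x) = 0 := by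
      intro n
      rw [← hF]
      change coeff n (Φ x) = 0
      rw [hx, map_zero]
    have hpow : ∀ n, x = ϖ ^ n * D^[n] x := by
      intro n
      induction n with
      | zero => simp
      | succ n ih =>
        have h1 := hD (D^[n] x)
        rw [hx' n, map_zero, zero_add] at h1
        rw [Function.iterate_succ_apply', pow_succ, mul_assoc, ← h1]
        exact ih
    by_contra hne
    obtain ⟨n, u, hu⟩ := IsDiscreteValuationRing.eq_unit_mul_pow_irreducible hne hϖ
    have h2 := hpow (n + 1)
    rw [hu, pow_succ, mul_assoc, mul_comm (u : R)] at h2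
    have h3 := mul_left_cancel₀ (pow_ne_zero n hϖ0) h2
    apply hϖ.not_isUnit
    exact isUnit_of_dvd_unit ⟨_, h3⟩ u.isUnit
  · intro x hx
    change constantCoeff (F x) = 0
    rw [← coeff_zero_eq_constantCoeff_apply, hF]
    simpa using (hrm x).mpr hx

theorem residue_comp_surjective {k O OP : Type*} [Field k] [CommRing O] [CommRing OP]
    [Algebra O OP] (P : Ideal O) [P.IsPrime] [IsLocalization.AtPrime OP P] [IsLocalRing OP]
    (ι0 : k →+* O) (hsurj0 : Function.Surjective ((Ideal.Quotient.mk P).comp ι0)) :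
    Function.Surjective ((IsLocalRing.residue OP).comp ((algebraMap O OP).comp ι0)) := by
  intro y
  obtain ⟨z, rfl⟩ := IsLocalRing.residue_surjective y
  obtain ⟨⟨a, s⟩, hz⟩ := IsLocalization.surj P.primeCompl z
  obtain ⟨ca, hca⟩ := hsurj0 (Ideal.Quotient.mk P a)
  obtain ⟨cs, hcs⟩ := hsurj0 (Ideal.Quotient.mk P s)
  have hmem : ∀ x : O, x ∈ P → algebraMap O OP x ∈ IsLocalRing.maximalIdeal OP := fun x hx =>
    (IsLocalization.AtPrime.to_map_mem_maximal_iff OP P x).mpr hx
  have hgen : ∀ (x : O) (c : k), (Ideal.Quotient.mk P).comp ι0 c = Ideal.Quotient.mk P x →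
      IsLocalRing.residue OP (algebraMap O OP x) =
        IsLocalRing.residue OP (algebraMap O OP (ι0 c)) := by
    intro x c hc
    rw [← sub_eq_zero, ← map_sub, IsLocalRing.residue_eq_zero_iff, ← map_sub]
    apply hmem
    rw [← Ideal.Quotient.eq]
    exact hc.symm
  have h1 := hgen a ca hca
  have h2 := hgen s cs hcs
  have hcs0 : cs ≠ 0 := by
    rintro rfl
    rw [map_zero] at hcs
    exact s.2 (Ideal.Quotient.eq_zero_iff_mem.mp hcs.symm)
  refine ⟨ca / cs, ?_⟩
  have h3 := congrArg (IsLocalRing.residue OP) hz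
  rw [map_mul] at h3
  simp only at h3
  rw [h1, h2] at h3
  have h4 : IsLocalRing.residue OP (algebraMap O OP (ι0 cs)) ≠ 0 := by
    have : ((IsLocalRing.residue OP).comp ((algebraMap O OP).comp ι0)) cs ≠ 0 := by
      rw [Ne, _root_.map_eq_zero]
      exact hcs0
    exact this
  rw [map_div₀, div_eq_iff]
  · exact h3.symm
  · exact h4

/-- A finite separable extension of `k((t))`, `k` algebraically closed, embeds in `k((s))` in such
a way that `k[[t]]` is mapped into `k[[s]]` by a local homomorphism over `k`. -/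
theorem exists_embedding {k : Type*} [Field k] [IsAlgClosed k] (L : Type*) [Field L]
    [Algebra k⸨X⸩ L] [FiniteDimensional k⸨X⸩ L] [Algebra.IsSeparable k⸨X⸩ L] :
    ∃ (ρ : k⟦X⟧ →+* k⟦X⟧) (σ : L →+* k⸨X⸩), (∀ c, ρ (C c) = C c) ∧
      (∀ f, constantCoeff (ρ f) = constantCoeff f) ∧
      ∀ f : k⟦X⟧, σ (algebraMap k⸨X⸩ L (algebraMap k⟦X⟧ k⸨X⸩ f)) =
        algebraMap k⟦X⟧ k⸨X⸩ (ρ f) := by
  letI : Algebra k⟦X⟧ L := ((algebraMap k⸨X⸩ L).comp (algebraMap k⟦X⟧ k⸨X⸩)).toAlgebra
  haveI : IsScalarTower k⟦X⟧ k⸨X⸩ L := IsScalarTower.of_algebraMap_eq fun _ => rfl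
  let O := integralClosure k⟦X⟧ L
  haveI : IsDedekindDomain O := integralClosure.isDedekindDomain k⟦X⟧ k⸨X⸩ L
  haveI : IsFractionRing O L := integralClosure.isFractionRing_of_finite_extension k⸨X⸩ L
  have hinjL : Function.Injective (algebraMap k⟦X⟧ L) := by
    rw [IsScalarTower.algebraMap_eq k⟦X⟧ k⸨X⸩ L]
    exact (algebraMap k⸨X⸩ L).injective.comp (IsFractionRing.injective k⟦X⟧ k⸨X⸩)
  have hinjO : Function.Injective (algebraMap k⟦X⟧ O) := by
    have : Function.Injective ((algebraMap O L) ∘ (algebraMap k⟦X⟧ O)) := by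
      rw [← RingHom.coe_comp, ← IsScalarTower.algebraMap_eq]
      exact hinjL
    exact this.of_comp
  obtain ⟨P, hP⟩ := Ideal.exists_maximal O
  haveI : P.IsPrime := hP.isPrime
  have hcomap : P.comap (algebraMap k⟦X⟧ O) = IsLocalRing.maximalIdeal k⟦X⟧ := by
    have : (P.comap (algebraMap k⟦X⟧ O)).IsMaximal :=
      Ideal.isMaximal_comap_of_isIntegral_of_isMaximal P
    exact IsLocalRing.eq_maximalIdeal this
  have hXP : algebraMap k⟦X⟧ O X ∈ P := by
    rw [← Ideal.mem_comap, hcomap, PowerSeries.maximalIdeal_eq_span_X]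
    exact Ideal.mem_span_singleton_self _
  have hP0 : P ≠ ⊥ := by
    intro h
    rw [h, Ideal.mem_bot] at hXP
    have : (X : k⟦X⟧) = 0 := hinjO (by rw [hXP, map_zero])
    exact X_ne_zero this
  let OP := Localization.AtPrime P
  haveI : IsDomain OP := IsLocalization.isDomain_localization P.primeCompl_le_nonZeroDivisors
  haveI : IsDiscreteValuationRing OP :=
    IsLocalization.AtPrime.isDiscreteValuationRing_of_dedekind_domain O hP0 OP
  let ι0 : k →+* O := (algebraMap k⟦X⟧ O).comp C
  let ι : k →+* OP := (algebraMap O OP).comp ι0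
  -- k surjects onto O / P
  have hsurj0 : Function.Surjective ((Ideal.Quotient.mk P).comp ι0) := by
    letI : Field (O ⧸ P) := Ideal.Quotient.field P
    letI : Algebra k (O ⧸ P) := ((Ideal.Quotient.mk P).comp ι0).toAlgebra
    haveI : Algebra.IsIntegral k (O ⧸ P) := by
      constructor
      intro y
      obtain ⟨x, rfl⟩ := Ideal.Quotient.mk_surjective y
      have hx : IsIntegral k⟦X⟧ x := by
        have := Algebra.IsIntegral.isIntegral (R := k⟦X⟧) x
        exact this
      obtain ⟨p, hp, hpx⟩ := hx
      refine ⟨p.map constantCoeff, hp.map _, ?_⟩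
      have hcomp : (algebraMap k (O ⧸ P)).comp (constantCoeff : k⟦X⟧ →+* k) =
          (Ideal.Quotient.mk P).comp (algebraMap k⟦X⟧ O) := by
        ext f
        change Ideal.Quotient.mk P (algebraMap k⟦X⟧ O (C (constantCoeff f))) =
          Ideal.Quotient.mk P (algebraMap k⟦X⟧ O f)
        rw [Ideal.Quotient.eq, ← map_sub, ← Ideal.mem_comap, hcomap,
          PowerSeries.maximalIdeal_eq_span_X, Ideal.mem_span_singleton, X_dvd_iff]
        simp
      rw [Polynomial.eval₂_map, hcomp, ← Polynomial.hom_eval₂, hpx, map_zero]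
    exact (IsAlgClosed.algebraMap_bijective_of_isIntegral (k := k)).2
  have hsurj : Function.Surjective ((IsLocalRing.residue OP).comp ι) :=
    residue_comp_surjective P ι0 hsurj0
  obtain ⟨Φ, hΦinj, hΦC, hΦm⟩ := exists_digits (k := k) (R := OP) ι hsurj
  let Ψ : O →+* k⟦X⟧ := Φ.comp (algebraMap O OP)
  have hΨinj : Function.Injective Ψ := hΦinj.comp
    (IsLocalization.injective OP P.primeCompl_le_nonZeroDivisors)
  let g : O →+* k⸨X⸩ := (algebraMap k⟦X⟧ k⸨X⸩).comp Ψ
  have hg : Function.Injective g := (IsFractionRing.injective k⟦X⟧ k⸨X⸩).comp hΨinj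
  refine ⟨Ψ.comp (algebraMap k⟦X⟧ O), IsFractionRing.lift hg, ?_, ?_, ?_⟩
  · intro c
    exact hΦC c
  · intro f
    have hf : f = C (constantCoeff f) + X * (PowerSeries.mk fun n => coeff (n + 1) f) := by
      ext n
      cases n with
      | zero => simp
      | succ n => simp [coeff_succ_X_mul, coeff_C]
    have h1 : Ψ (algebraMap k⟦X⟧ O (C (constantCoeff f))) = C (constantCoeff f) := hΦC _
    have h2 : constantCoeff (Ψ (algebraMap k⟦X⟧ O X)) = 0 := by
      apply hΦm
      exact (IsLocalization.AtPrime.to_map_mem_maximal_iff OP P _).mpr hXP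
    conv_lhs => rw [hf]
    rw [RingHom.comp_apply, map_add, map_add, map_add, map_mul, map_mul, map_mul, h1, h2]
    simp
  · intro f
    have : algebraMap k⸨X⸩ L (algebraMap k⟦X⟧ k⸨X⸩ f) = algebraMap O L (algebraMap k⟦X⟧ O f) := by
      rw [← IsScalarTower.algebraMap_apply, ← IsScalarTower.algebraMap_apply]
    rw [this, IsFractionRing.lift_algebraMap]
    rfl

end Pool.Agent.H945R3
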