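import Mathlib

set_option autoImplicit false
set_option linter.style.haveILetI false

namespace Pool.Agent.H945R3

open Module

/-- Extending a linearly independent family to a basis with prescribed positions. -/
theorem exists_basis_prescribed {k V ι τ : Type*} [Field k] [AddCommGroup V] [Module k V]
    [Fintype ι] [Finite τ] (b : Basis ι k V) (p : τ → ι) (hp : Function.Injective p)
    (v : τ → V) (hv : LinearIndependent k v) :
    ∃ f : Basis ι k V, ∀ t, f (p t) = v t := by
  classical
  haveI : Fintype τ := Fintype.ofFinite τ
  let B := Basis.sumExtend hv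
  let E := B.indexEquiv b
  haveI : Finite (τ ⊕ Basis.sumExtendIndex hv) := Finite.of_equiv _ E.symm
  haveI : Finite (Basis.sumExtendIndex hv) :=
    Finite.of_injective (fun x => (Sum.inr x : τ ⊕ Basis.sumExtendIndex hv)) Sum.inr_injective
  have hcard : Nat.card (Basis.sumExtendIndex hv) = Nat.card ((Set.range p)ᶜ : Set ι) := by
    have h1 : Nat.card τ + Nat.card (Basis.sumExtendIndex hv) = Nat.card ι := by
      rw [← Nat.card_sum]
      exact Nat.card_congr E
    have h2 : Nat.card (Set.range p) + Nat.card ((Set.range p)ᶜ : Set ι) = Nat.card ι := by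
      rw [← Nat.card_sum]
      exact Nat.card_congr (Equiv.Set.sumCompl (Set.range p))
    have h3 : Nat.card τ = Nat.card (Set.range p) :=
      Nat.card_congr (Equiv.ofInjective p hp)
    omega
  obtain ⟨e1⟩ : Nonempty (Basis.sumExtendIndex hv ≃ ((Set.range p)ᶜ : Set ι)) :=
    Finite.card_eq.mp hcard
  refine ⟨B.reindex (((Equiv.ofInjective p hp).sumCongr e1).trans
    (Equiv.Set.sumCompl (Set.range p))), fun t => ?_⟩
  rw [Basis.reindex_apply]
  have : (((Equiv.ofInjective p hp).sumCongr e1).trans
    (Equiv.Set.sumCompl (Set.range p))).symm (p t) = Sum.inl t := by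
    rw [Equiv.symm_apply_eq]
    simp
  rw [this]
  have hB : B (Sum.inl t) = v t := by
    simp only [B, Basis.sumExtend, Basis.reindex_apply, Basis.extend_apply_self]
    rfl
  exact hB

/-- The three-term independence: in an algebra of dimension at least 3 there are `u, v` with
`u, v, uv` linearly independent. -/
theorem exists_indep_three {k A : Type*} [Field k] [Infinite k] [CommRing A] [Algebra k A]
    (x y : A) (h : LinearIndependent k ![(1 : A), x, y]) :
    ∃ u v : A, LinearIndependent k ![u, v, u * v] := by
  classical
  -- dual functionals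
  obtain ⟨φ, hφ⟩ : ∃ φ : A →ₗ[k] (Fin 3 → k), ∀ i, φ (![(1 : A), x, y] i) = Pi.single i 1 := by
    obtain ⟨g, hg⟩ := (Submodule.subtype (Submodule.span k (Set.range ![(1 : A), x, y]))).exists_leftInverse_of_injective
      (by simp)
    let B := Basis.span h
    refine ⟨B.equivFun.toLinearMap ∘ₗ g, fun i => ?_⟩
    have h1 : g (![(1 : A), x, y] i) = B i := by
      have : ![(1 : A), x, y] i = Submodule.subtype _ (B i) := by
        simp [B, Basis.span_apply]
      rw [this]
      exact LinearMap.congr_fun hg (B i)
    simp only [LinearMap.comp_apply, h1, LinearEquiv.coe_coe]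
    ext j
    simp [Pi.single_apply, eq_comm]
  have h0 : φ 1 = ![1, 0, 0] := by
    have := hφ 0
    simp only [Matrix.cons_val_zero] at this
    rw [this]; ext j; fin_cases j <;> simp
  have h1 : φ x = ![0, 1, 0] := by
    have := hφ 1
    simp only [Matrix.cons_val_one, Matrix.cons_val_zero] at this
    rw [this]; ext j; fin_cases j <;> simp
  have h2 : φ y = ![0, 0, 1] := by
    have := hφ 2
    simp only [Matrix.cons_val_two, Matrix.tail_cons, Matrix.head_cons] at this
    rw [this]; ext j; fin_cases j <;> simp
  set p := φ (x * y) 0 with hp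
  set q := φ (x * y) 1 with hq
  set r := φ (x * y) 2 with hr
  -- choose s
  obtain ⟨s, hs⟩ : ∃ s : k, s ∉ ({0, - r⁻¹} : Set k) :=
    (Set.toFinite ({0, - r⁻¹} : Set k)).infinite_compl.nonempty
  have hs0 : s ≠ 0 := fun h => hs (by simp [h])
  have hsr : -1 - s * r ≠ 0 := by
    intro h
    have hr0 : r ≠ 0 := by
      rintro h0
      rw [h0] at h
      simp at h
    apply hs
    right
    have : s * r = -1 := by linear_combination -h
    rw [Set.mem_singleton_iff]
    field_simp
    exact this
  obtain ⟨t, ht⟩ : ∃ t : k, t ∉ ({0, (1 + s * r) / (s * p - q)} : Set k) :=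
    (Set.toFinite ({0, (1 + s * r) / (s * p - q)} : Set k)).infinite_compl.nonempty
  have ht0 : t ≠ 0 := fun h => ht (by simp [h])
  have hdet : -1 - s * r + t * (s * p - q) ≠ 0 := by
    intro h
    have hc : s * p - q ≠ 0 := by
      rintro h0
      rw [h0] at h
      apply hsr
      linear_combination h
    apply ht
    right
    rw [Set.mem_singleton_iff, eq_div_iff hc]
    linear_combination h
  refine ⟨1 + s • x, 1 + t • y, ?_⟩
  apply LinearIndependent.of_comp φ
  have hu : φ (1 + s • x) = ![1, s, 0] := by
    rw [map_add, map_smul, h0, h1]; ext j; fin_cases j <;> simp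
  have hv : φ (1 + t • y) = ![1, 0, t] := by
    rw [map_add, map_smul, h0, h2]; ext j; fin_cases j <;> simp
  have huv : φ ((1 + s • x) * (1 + t • y)) = ![1 + s * t * p, s + s * t * q, t + s * t * r] := by
    have : (1 + s • x) * (1 + t • y) = 1 + s • x + t • y + (s * t) • (x * y) := by
      simp only [add_mul, mul_add, one_mul, mul_one, smul_mul_smul_comm]
      ring
    rw [this, map_add, map_add, map_add, map_smul, map_smul, map_smul, h0, h1, h2]
    ext j; fin_cases j <;> simp [hp, hq, hr, mul_assoc]
  have hD : (!![1, s, 0; 1, 0, t; 1 + s * t * p, s + s * t * q, t + s * t * r] :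
      Matrix (Fin 3) (Fin 3) k).det ≠ 0 := by
    rw [Matrix.det_fin_three]
    simp
    intro h
    apply hdet
    have h3 : s * t * (-1 - s * r + t * (s * p - q)) = 0 := by
      linear_combination h
    exact (mul_eq_zero.mp h3).resolve_left (mul_ne_zero hs0 ht0)
  have hmat : (φ ∘ ![1 + s • x, 1 + t • y, (1 + s • x) * (1 + t • y)]) =
      (!![1, s, 0; 1, 0, t; 1 + s * t * p, s + s * t * q, t + s * t * r] :
      Matrix (Fin 3) (Fin 3) k).row := by
    funext i
    fin_cases i
    · exact hu
    · exact hv
    · exact huv
  rw [hmat]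
  exact Matrix.linearIndependent_rows_of_det_ne_zero hD

theorem exists_indep_two {k A : Type*} [Field k] [Infinite k] [CommRing A] [Algebra k A]
    (x : A) (h : LinearIndependent k ![(1 : A), x]) :
    ∃ u : A, LinearIndependent k ![u, u * u] := by
  classical
  obtain ⟨φ, hφ⟩ : ∃ φ : A →ₗ[k] (Fin 2 → k), ∀ i, φ (![(1 : A), x] i) = Pi.single i 1 := by
    obtain ⟨g, hg⟩ := (Submodule.subtype (Submodule.span k (Set.range ![(1 : A), x]))).exists_leftInverse_of_injective
      (by simp)
    let B := Basis.span h
    refine ⟨B.equivFun.toLinearMap ∘ₗ g, fun i => ?_⟩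
    have h1 : g (![(1 : A), x] i) = B i := by
      have : ![(1 : A), x] i = Submodule.subtype _ (B i) := by
        simp [B, Basis.span_apply]
      rw [this]
      exact LinearMap.congr_fun hg (B i)
    simp only [LinearMap.comp_apply, h1, LinearEquiv.coe_coe]
    ext j
    simp [Pi.single_apply, eq_comm]
  have h0 : φ 1 = ![1, 0] := by
    have := hφ 0
    simp only [Matrix.cons_val_zero] at this
    rw [this]; ext j; fin_cases j <;> simp
  have h1 : φ x = ![0, 1] := by
    have := hφ 1
    simp only [Matrix.cons_val_one, Matrix.cons_val_zero] at this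
    rw [this]; ext j; fin_cases j <;> simp
  set p := φ (x * x) 0 with hp
  set q := φ (x * x) 1 with hq
  -- choose s with s ≠ 0, 1 + s q - s^2 p ≠ 0
  have hpoly : (1 + Polynomial.X * Polynomial.C q - Polynomial.X ^ 2 * Polynomial.C p :
      Polynomial k) ≠ 0 := by
    intro h
    have := congrArg (Polynomial.eval 0) h
    simp at this
  obtain ⟨s, hs⟩ : ∃ s : k, s ∉ ({0} ∪ {s | (1 + Polynomial.X * Polynomial.C q -
      Polynomial.X ^ 2 * Polynomial.C p : Polynomial k).IsRoot s} : Set k) :=
    ((Set.finite_singleton 0).union (Polynomial.finite_setOfPred_isRoot hpoly)).infinite_compl.nonempty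
  have hs0 : s ≠ 0 := fun h => hs (by simp [h])
  have hs1 : 1 + s * q - s ^ 2 * p ≠ 0 := by
    intro h
    apply hs
    right
    change Polynomial.eval s _ = 0
    simp
    linear_combination h
  refine ⟨1 + s • x, ?_⟩
  apply LinearIndependent.of_comp φ
  have hu : φ (1 + s • x) = ![1, s] := by
    rw [map_add, map_smul, h0, h1]; ext j; fin_cases j <;> simp
  have huv : φ ((1 + s • x) * (1 + s • x)) = ![1 + s * s * p, s + s + s * s * q] := by
    have : (1 + s • x) * (1 + s • x) = 1 + s • x + s • x + (s * s) • (x * x) := by
      simp only [add_mul, mul_add, one_mul, mul_one, smul_mul_smul_comm]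
      ring
    rw [this, map_add, map_add, map_add, map_smul, map_smul, h0, h1]
    ext j; fin_cases j <;> simp [hp, hq, mul_assoc]
  have hD : (!![1, s; 1 + s * s * p, s + s + s * s * q] :
      Matrix (Fin 2) (Fin 2) k).det ≠ 0 := by
    rw [Matrix.det_fin_two]
    simp
    intro h
    apply hs1
    have h3 : s * (1 + s * q - s ^ 2 * p) = 0 := by
      linear_combination h
    exact (mul_eq_zero.mp h3).resolve_left hs0
  have hmat : (φ ∘ ![1 + s • x, (1 + s • x) * (1 + s • x)]) =
      (!![1, s; 1 + s * s * p, s + s + s * s * q] : Matrix (Fin 2) (Fin 2) k).row := by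
    funext i
    fin_cases i
    · exact hu
    · exact huv
  rw [hmat]
  exact Matrix.linearIndependent_rows_of_det_ne_zero hD

/-- For each triple of indices there is a family whose replacement determinant is nonzero. -/
theorem exists_family {k A ι : Type*} [Field k] [Infinite k] [CommRing A] [Algebra k A]
    [Fintype ι] [DecidableEq ι] (b : Basis ι k A) (i j l : ι) :
    ∃ e : ι → A, b.det (Function.update e l (e i * e j)) ≠ 0 := by
  classical
  haveI : Nonempty ι := ⟨l⟩
  haveI : Nontrivial A := ⟨b l, 0, b.ne_zero l⟩
  have hdet : ∀ f : Basis ι k A, b.det f ≠ 0 := fun f => (b.isUnit_det f).ne_zero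
  have h1 : LinearIndependent k (fun _ : Fin 1 => (1 : A)) := by
    rw [linearIndependent_unique_iff]
    exact one_ne_zero
  by_cases hli : l = i
  · subst hli
    by_cases hlj : l = j
    · subst hlj
      obtain ⟨f, hf⟩ := exists_basis_prescribed b (fun _ : Fin 1 => l)
        (Function.injective_of_subsingleton _) _ h1
      refine ⟨f, ?_⟩
      have hl : f l = 1 := hf 0
      have : Function.update (f : ι → A) l (f l * f l) = f := by
        rw [hl, mul_one, ← hl, Function.update_eq_self]
      rw [this]
      exact hdet f
    · obtain ⟨f, hf⟩ := exists_basis_prescribed b (fun _ : Fin 1 => j)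
        (Function.injective_of_subsingleton _) _ h1
      refine ⟨f, ?_⟩
      have hj : f j = 1 := hf 0
      rw [hj, mul_one, Function.update_eq_self]
      exact hdet f
  · by_cases hlj : l = j
    · subst hlj
      obtain ⟨f, hf⟩ := exists_basis_prescribed b (fun _ : Fin 1 => i)
        (Function.injective_of_subsingleton _) _ h1
      refine ⟨f, ?_⟩
      have hi : f i = 1 := hf 0
      rw [hi, one_mul, Function.update_eq_self]
      exact hdet f
    · by_cases hij : i = j
      · subst hij
        -- need u, u^2 independent
        obtain ⟨x, hx⟩ : ∃ x : A, LinearIndependent k ![(1 : A), x] := by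
          obtain ⟨f, hf⟩ := exists_basis_prescribed b (fun _ : Fin 1 => i)
            (Function.injective_of_subsingleton _) _ h1
          refine ⟨f l, ?_⟩
          have := f.linearIndependent.comp ![i, l] (by
            intro a c h
            fin_cases a <;> fin_cases c <;> simp_all)
          have h2 : ((f : ι → A) ∘ ![i, l]) = ![(1 : A), f l] := by
            funext a
            fin_cases a
            · exact hf 0
            · rfl
          rw [h2] at this
          exact this
        obtain ⟨u, hu⟩ := exists_indep_two x hx
        obtain ⟨f, hf⟩ := exists_basis_prescribed b ![i, l] (by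
            intro a c h
            fin_cases a <;> fin_cases c <;> simp_all) _ hu
        refine ⟨f, ?_⟩
        have hi : f i = u := hf 0
        have hl : f l = u * u := hf 1
        rw [hi, ← hl, Function.update_eq_self]
        exact hdet f
      · obtain ⟨x, y, hx⟩ : ∃ x y : A, LinearIndependent k ![(1 : A), x, y] := by
          obtain ⟨f, hf⟩ := exists_basis_prescribed b (fun _ : Fin 1 => i)
            (Function.injective_of_subsingleton _) _ h1
          refine ⟨f j, f l, ?_⟩
          have := f.linearIndependent.comp ![i, j, l] (by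
            intro a c h
            fin_cases a <;> fin_cases c <;> simp_all)
          have h2 : ((f : ι → A) ∘ ![i, j, l]) = ![(1 : A), f j, f l] := by
            funext a
            fin_cases a
            · exact hf 0
            · rfl
            · rfl
          rw [h2] at this
          exact this
        obtain ⟨u, v, hu⟩ := exists_indep_three x y hx
        obtain ⟨f, hf⟩ := exists_basis_prescribed b ![i, j, l] (by
            intro a c h
            fin_cases a <;> fin_cases c <;> simp_all) _ hu
        refine ⟨f, ?_⟩
        have hi : f i = u := hf 0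
        have hj : f j = v := hf 1
        have hl : f l = u * v := hf 2
        rw [hi, hj, ← hl, Function.update_eq_self]
        exact hdet f

theorem det_update_basis {k A ι : Type*} [Field k] [AddCommGroup A] [Module k A]
    [Fintype ι] [DecidableEq ι] (b f : Basis ι k A) (l : ι) (x : A) :
    b.det (Function.update f l x) = f.repr x l * b.det f := by
  classical
  conv_lhs => rw [← f.sum_repr x]
  rw [AlternatingMap.map_update_sum, Finset.sum_eq_single l]
  · rw [AlternatingMap.map_update_smul, Function.update_eq_self, smul_eq_mul]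
  · intro m _ hm
    rw [AlternatingMap.map_update_smul, AlternatingMap.map_update_self _ _ hm.symm, smul_zero]
  · simp

/-- Over an infinite field, every finite-dimensional commutative unital algebra has a basis all of
whose structure constants are nonzero. -/
theorem exists_generic_basis {k A ι : Type*} [Field k] [Infinite k] [CommRing A] [Algebra k A]
    [Fintype ι] [DecidableEq ι] (b : Basis ι k A) :
    ∃ f : Basis ι k A, ∀ i j l, f.repr (f i * f j) l ≠ 0 := by
  classical
  let P : ι × ι × ι → Matrix ι ι (MvPolynomial (ι × ι) k) := fun t =>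
    (Matrix.mvPolynomialX ι ι k).updateCol t.2.2 (fun m => ∑ a, ∑ a',
      MvPolynomial.X (a, t.1) * MvPolynomial.X (a', t.2.1) *
        MvPolynomial.C (b.repr (b a * b a') m))
  have hP : ∀ (t : ι × ι × ι) (e : ι → A),
      MvPolynomial.eval (fun p : ι × ι => b.repr (e p.2) p.1) (P t).det =
        b.det (Function.update e t.2.2 (e t.1 * e t.2.1)) := by
    intro t e
    rw [RingHom.map_det, Basis.det_apply]
    congr 1
    ext m c
    simp only [RingHom.mapMatrix_apply, Matrix.map_apply, P, Basis.toMatrix_apply]
    by_cases hc : c = t.2.2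
    · subst hc
      simp only [Matrix.updateCol_self, Function.update_self, map_sum, map_mul,
        MvPolynomial.eval_X, MvPolynomial.eval_C]
      conv_rhs => rw [← b.sum_repr (e t.1), ← b.sum_repr (e t.2.1)]
      rw [Finset.sum_mul]
      simp only [Finset.mul_sum, smul_mul_smul_comm, map_sum, map_smul, Finsupp.coe_finsetSum,
        Finset.sum_apply, Finsupp.coe_smul, Pi.smul_apply, smul_eq_mul]
    · simp [Matrix.updateCol_ne hc, Function.update_of_ne hc, Matrix.mvPolynomialX_apply]
  have hP0 : ∀ t, (P t).det ≠ 0 := by
    intro t h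
    obtain ⟨e, he⟩ := exists_family b t.1 t.2.1 t.2.2
    apply he
    rw [← hP t e, h, map_zero]
  have hX : ∀ e : ι → A, MvPolynomial.eval (fun p : ι × ι => b.repr (e p.2) p.1)
      (Matrix.mvPolynomialX ι ι k).det = b.det e := by
    intro e
    rw [RingHom.map_det, Basis.det_apply]
    congr 1
    ext m c
    simp [Matrix.mvPolynomialX_apply, Basis.toMatrix_apply]
  have hX0 : (Matrix.mvPolynomialX ι ι k).det ≠ 0 := by
    intro h
    have := hX b
    rw [h, map_zero] at this
    exact (b.isUnit_det b).ne_zero this.symm
  have hT : (∏ t, (P t).det) * (Matrix.mvPolynomialX ι ι k).det ≠ 0 :=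
    mul_ne_zero (Finset.prod_ne_zero_iff.mpr fun t _ => hP0 t) hX0
  obtain ⟨x, hx⟩ : ∃ x : ι × ι → k,
      MvPolynomial.eval x ((∏ t, (P t).det) * (Matrix.mvPolynomialX ι ι k).det) ≠ 0 := by
    by_contra hcon
    push Not at hcon
    apply hT
    apply MvPolynomial.funext
    intro x
    rw [hcon x, map_zero]
  let e : ι → A := fun i => ∑ a, x (a, i) • b a
  have hex : (fun p : ι × ι => b.repr (e p.2) p.1) = x := by
    funext p
    simp only [e, map_sum, map_smul, Basis.repr_self, Finsupp.coe_finsetSum, Finset.sum_apply,
      Finsupp.coe_smul, Pi.smul_apply, smul_eq_mul, Finsupp.single_apply, mul_ite, mul_one,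
      mul_zero]
    simp
  rw [map_mul, map_prod] at hx
  have hx1 := left_ne_zero_of_mul hx
  have hx2 := right_ne_zero_of_mul hx
  rw [← hex, hX e] at hx2
  have hbasis := (b.is_basis_iff_det (v := e)).mpr (IsUnit.mk0 _ hx2)
  let f : Basis ι k A := Basis.mk hbasis.1 hbasis.2.ge
  have hf : (f : ι → A) = e := Basis.coe_mk _ _
  refine ⟨f, fun i j l h => ?_⟩
  have h1 := Finset.prod_ne_zero_iff.mp hx1 (i, j, l) (Finset.mem_univ _)
  rw [← hex, hP] at h1
  apply h1
  simp only
  rw [← hf, det_update_basis, h, zero_mul]

end Pool.Agent.H945R3
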