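import Mathlib
import Pool.Agent.H945R3.GenericBasis

set_option autoImplicit false
set_option linter.style.haveILetI false

namespace Pool.Agent.H945R3

open Module PowerSeries

variable {k : Type*} [Field k]

theorem constantCoeff_smul_map {A B : Type*} [CommRing A] [Algebra k A] [CommRing B]
    [Algebra k⟦X⟧ B] (ψ : B →+* A) (hX : ψ (algebraMap k⟦X⟧ B X) = 0)
    (hC : ∀ c : k, ψ (algebraMap k⟦X⟧ B (C c)) = algebraMap k A c) (r : k⟦X⟧) (x : B) :
    ψ (r • x) = constantCoeff r • ψ x := by
  have hr : r = C (constantCoeff r) + X * (mk fun n => coeff (n + 1) r) := by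
    ext n
    cases n with
    | zero => simp
    | succ n => simp [coeff_succ_X_mul, coeff_C]
  rw [Algebra.smul_def, map_mul, Algebra.smul_def]
  congr 1
  conv_lhs => rw [hr]
  rw [map_add, map_add, map_mul, map_mul, hX, zero_mul, add_zero, hC]

/-- Every finite flat `k[[t]]`-algebra has a `k[[t]]`-basis all of whose structure constants are
units of `k[[t]]`. -/
theorem exists_unit_basis [Infinite k] {A B : Type*} [CommRing A] [Algebra k A] [CommRing B]
    [Algebra k⟦X⟧ B] [Module.Finite k⟦X⟧ B] [Module.Flat k⟦X⟧ B]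
    (ψ : B →+* A) (hsurj : Function.Surjective ψ)
    (hX : ψ (algebraMap k⟦X⟧ B X) = 0)
    (hker : ∀ x, ψ x = 0 → ∃ y, x = (X : k⟦X⟧) • y)
    (hC : ∀ c : k, ψ (algebraMap k⟦X⟧ B (C c)) = algebraMap k A c) :
    ∃ e : Basis (Fin (finrank k⟦X⟧ B)) k⟦X⟧ B,
      ∀ i j l, constantCoeff (e.repr (e i * e j) l) ≠ 0 := by
  classical
  haveI : Module.Free k⟦X⟧ B := Module.free_of_flat_of_isLocalRing
  let b : Basis (Fin (finrank k⟦X⟧ B)) k⟦X⟧ B := Module.finBasis k⟦X⟧ B
  have hsm := constantCoeff_smul_map ψ hX hC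
  have hli : LinearIndependent k (ψ ∘ b) := by
    rw [Fintype.linearIndependent_iff]
    intro g hg i
    have h1 : ψ (∑ i, (C (g i) : k⟦X⟧) • b i) = 0 := by
      rw [map_sum]
      simp only [hsm, constantCoeff_C]
      exact hg
    obtain ⟨y, hy⟩ := hker _ h1
    have h2 := congrArg (fun z => b.repr z i) hy
    simp only [map_sum, map_smul, Basis.repr_self, Finsupp.coe_finsetSum, Finset.sum_apply,
      Finsupp.coe_smul, Pi.smul_apply, smul_eq_mul, Finsupp.single_apply, mul_ite, mul_one,
      mul_zero, Finset.sum_ite_eq', Finset.mem_univ, if_true] at h2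
    have h3 := congrArg constantCoeff h2
    simpa using h3
  have hsp : ⊤ ≤ Submodule.span k (Set.range (ψ ∘ b)) := by
    intro a _
    obtain ⟨x, rfl⟩ := hsurj a
    rw [← b.sum_repr x, map_sum]
    apply Submodule.sum_mem
    intro i _
    rw [hsm]
    exact Submodule.smul_mem _ _ (Submodule.subset_span ⟨i, rfl⟩)
  let b' : Basis (Fin (finrank k⟦X⟧ B)) k A := Basis.mk hli hsp
  have hb' : ∀ i, b' i = ψ (b i) := fun i => by
    simp only [b', Basis.mk_apply, Function.comp]
  obtain ⟨f, hf⟩ := exists_generic_basis b'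
  let e0 : Fin (finrank k⟦X⟧ B) → B := fun i => ∑ a, (C (b'.repr (f i) a) : k⟦X⟧) • b a
  have hmat : b.toMatrix e0 = (b'.toMatrix f).map (C : k →+* k⟦X⟧) := by
    ext1 a i
    simp only [Basis.toMatrix_apply, e0, map_sum, map_smul, Basis.repr_self,
      Finsupp.coe_finsetSum, Finset.sum_apply, Finsupp.coe_smul, Pi.smul_apply, smul_eq_mul,
      Finsupp.single_apply, mul_ite, mul_one, mul_zero, Matrix.map_apply]
    simp
  have hdet : IsUnit (b.det e0) := by
    rw [Basis.det_apply, hmat]
    have : ((b'.toMatrix f).map (C : k →+* k⟦X⟧)).det = C ((b'.toMatrix f).det) := by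
      rw [RingHom.map_det]
      rfl
    rw [this]
    apply IsUnit.map
    exact b'.isUnit_det f
  have hbasis := (b.is_basis_iff_det (v := e0)).mpr hdet
  let e : Basis (Fin (finrank k⟦X⟧ B)) k⟦X⟧ B := Basis.mk hbasis.1 hbasis.2.ge
  have he : ∀ i, e i = e0 i := fun i => by simp only [e, Basis.mk_apply]
  have hψe : ∀ i, ψ (e i) = f i := by
    intro i
    rw [he]
    simp only [e0, map_sum, hsm, constantCoeff_C]
    conv_rhs => rw [← b'.sum_repr (f i)]
    simp only [hb']
  refine ⟨e, fun i j l => ?_⟩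
  have h1 : f i * f j = ∑ m, constantCoeff (e.repr (e i * e j) m) • f m := by
    rw [← hψe i, ← hψe j, ← map_mul]
    conv_lhs => rw [← e.sum_repr (e i * e j)]
    rw [map_sum]
    simp only [hsm, hψe]
  have h2 : f.repr (f i * f j) l = constantCoeff (e.repr (e i * e j) l) := by
    rw [h1]
    simp only [map_sum, map_smul, Basis.repr_self,
      Finsupp.coe_finsetSum, Finset.sum_apply, Finsupp.coe_smul, Pi.smul_apply, smul_eq_mul,
      Finsupp.single_apply, mul_ite, mul_one, mul_zero]
    simp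
  rw [← h2]
  exact hf i j l

end Pool.Agent.H945R3
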