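import Mathlib
import Pool.Agent.H945R3.Lift
import Pool.Agent.H945R3.Digits

set_option autoImplicit false
set_option linter.style.haveILetI false

namespace Pool.Agent.H945R3

open Module PowerSeries TensorProduct
open scoped LaurentSeries

universe u

/-- A finite reduced algebra over an algebraically closed field is étale. -/
theorem etale_of_isReduced (K B : Type u) [Field K] [IsAlgClosed K] [CommRing B] [Algebra K B]
    [Module.Finite K B] [IsReduced B] : Algebra.Etale K B := by
  haveI : IsArtinianRing B := isArtinian_of_tower K inferInstance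
  rw [Algebra.Etale.iff_exists_algEquiv_prod]
  letI : ∀ i : MaximalSpectrum B, Field (B ⧸ i.asIdeal) := fun i => Ideal.Quotient.field i.asIdeal
  refine ⟨MaximalSpectrum B, inferInstance, fun i => B ⧸ i.asIdeal, inferInstance, inferInstance,
    (IsArtinianRing.equivPi B).restrictScalars K, fun i => ⟨inferInstance, ?_⟩⟩
  infer_instance

/-- A finite geometrically reduced algebra over a field is split by a finite separable field
extension. -/
theorem exists_split_extension (K B : Type u) [Field K] [CommRing B] [Algebra K B]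
    [Module.Finite K B] (h : IsReduced (AlgebraicClosure K ⊗[K] B)) :
    ∃ (L : Type u) (_ : Field L) (_ : Algebra K L), FiniteDimensional K L ∧
      Algebra.IsSeparable K L ∧ Algebra.IsFiniteSplit L (L ⊗[K] B) := by
  haveI := etale_of_isReduced (AlgebraicClosure K) (AlgebraicClosure K ⊗[K] B)
  haveI : Algebra.Etale K B :=
    Algebra.Etale.of_etale_tensorProduct_of_faithfullyFlat (AlgebraicClosure K)
  have hrank : Module.rankAtStalk (R := K) B = ((Module.finrank K B : ℕ) : PrimeSpectrum K → ℕ) := by
    funext p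
    rw [Module.rankAtStalk_eq_finrank_of_free]
  obtain ⟨T, _, _, hff, hfin, het, hsplit⟩ := Algebra.IsFiniteSplit.exists_tensorProduct_of_etale hrank
  haveI : Nontrivial T := by
    have := Module.FaithfullyFlat.lTensor_nontrivial K T K
    exact (TensorProduct.rid K T).symm.toEquiv.nontrivial
  obtain ⟨m, hm⟩ := Ideal.exists_maximal T
  letI : Field (T ⧸ m) := Ideal.Quotient.field m
  haveI : Module.Finite K (T ⧸ m) := inferInstance
  haveI : m.IsPrime := hm.isPrime
  haveI : Algebra.IsSeparable K (T ⧸ m) := inferInstance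
  refine ⟨T ⧸ m, inferInstance, inferInstance, inferInstance, inferInstance, ?_⟩
  exact Algebra.IsFiniteSplit.of_algEquiv
    (Algebra.TensorProduct.cancelBaseChange K T (T ⧸ m) (T ⧸ m) B)

/-- Base change of split generic fibres. -/
theorem split_baseChange {R K S F L B : Type*} [CommRing R] [Field K] [CommRing S] [Field F]
    [Field L] [CommRing B] [Algebra R K] [Algebra R S] [Algebra S F] [Algebra R F]
    [IsScalarTower R S F] [Algebra K F] [IsScalarTower R K F] [Algebra K L] [Algebra L F]
    [IsScalarTower K L F] [Algebra R B]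
    (h : Algebra.IsFiniteSplit L (L ⊗[K] (K ⊗[R] B))) :
    Algebra.IsFiniteSplit F (F ⊗[S] (S ⊗[R] B)) := by
  let e1 : F ⊗[S] (S ⊗[R] B) ≃ₐ[F] F ⊗[R] B :=
    Algebra.TensorProduct.cancelBaseChange R S F F B
  let e2 : F ⊗[K] (K ⊗[R] B) ≃ₐ[F] F ⊗[R] B :=
    Algebra.TensorProduct.cancelBaseChange R K F F B
  let e3 : F ⊗[L] (L ⊗[K] (K ⊗[R] B)) ≃ₐ[F] F ⊗[K] (K ⊗[R] B) :=
    Algebra.TensorProduct.cancelBaseChange K L F F (K ⊗[R] B)
  haveI : Algebra.IsFiniteSplit F (F ⊗[L] (L ⊗[K] (K ⊗[R] B))) := inferInstance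
  exact Algebra.IsFiniteSplit.of_algEquiv (R := F) (S := F ⊗[L] (L ⊗[K] (K ⊗[R] B)))
    (S' := F ⊗[S] (S ⊗[R] B)) ((e3.trans e2).trans e1.symm)

end Pool.Agent.H945R3
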