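import Mathlib
import Pool.Agent.H945R3.Split

set_option autoImplicit false
set_option linter.style.haveILetI false

namespace Pool.Agent.H945R3

open Module PowerSeries TensorProduct
open scoped LaurentSeries

universe u

/-- A copy of the ring of power series, used to carry a second algebra structure. -/
def PS (k : Type u) [Field k] : Type u := k⟦X⟧

noncomputable instance (k : Type u) [Field k] : CommRing (PS k) := inferInstanceAs (CommRing k⟦X⟧)

/-- The identity map from power series to their copy. -/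
noncomputable def toPS (k : Type u) [Field k] : k⟦X⟧ ≃+* PS k := RingEquiv.refl _

/-- The special fibre of a base change along a local homomorphism `k[[t]] → k[[s]]`. -/
theorem special_baseChange {k A B : Type u} [Field k] [CommRing A] [Algebra k A] [CommRing B]
    [Algebra k⟦X⟧ B] [Algebra k⟦X⟧ (PS k)]
    (hρC : ∀ c, algebraMap k⟦X⟧ (PS k) (C c) = toPS k (C c))
    (hρ0 : ∀ f, constantCoeff ((toPS k).symm (algebraMap k⟦X⟧ (PS k) f)) = constantCoeff f)
    (ψ : B →+* A) (hsurj : Function.Surjective ψ)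
    (hX : ψ (algebraMap k⟦X⟧ B X) = 0)
    (hker : ∀ x, ψ x = 0 → ∃ y, x = (X : k⟦X⟧) • y)
    (hC : ∀ c : k, ψ (algebraMap k⟦X⟧ B (C c)) = algebraMap k A c) :
    ∃ Ψ : (PS k ⊗[k⟦X⟧] B) →+* A, Function.Surjective Ψ ∧
      Ψ (algebraMap (PS k) (PS k ⊗[k⟦X⟧] B) (toPS k X)) = 0 ∧
      (∀ x, Ψ x = 0 → ∃ y, x = (toPS k X) • y) ∧
      (∀ c : k, Ψ (algebraMap (PS k) (PS k ⊗[k⟦X⟧] B) (toPS k (C c))) = algebraMap k A c) := by
  classical
  have hsm := constantCoeff_smul_map ψ hX hC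
  letI : Algebra k⟦X⟧ A := ((algebraMap k A).comp (constantCoeff (R := k))).toAlgebra
  have hψalg : ∀ r : k⟦X⟧, ψ (algebraMap k⟦X⟧ B r) = algebraMap k⟦X⟧ A r := by
    intro r
    have h1 := hsm r 1
    rw [map_one, Algebra.smul_def, mul_one] at h1
    rw [h1, Algebra.smul_def, mul_one]
    rfl
  let ψ' : B →ₐ[k⟦X⟧] A := { ψ with commutes' := hψalg }
  let cc : PS k →+* k := (constantCoeff (R := k)).comp ((toPS k).symm : PS k →+* k⟦X⟧)
  have hcc : ∀ f : k⟦X⟧, cc (toPS k f) = constantCoeff f := fun f => by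
    simp [cc]
  let χ : PS k →ₐ[k⟦X⟧] A :=
    { (algebraMap k A).comp cc with
      commutes' := fun r => by
        change algebraMap k A (constantCoeff ((toPS k).symm (algebraMap k⟦X⟧ (PS k) r))) = _
        rw [hρ0]
        rfl }
  let Ψ0 : (PS k ⊗[k⟦X⟧] B) →ₐ[k⟦X⟧] A := Algebra.TensorProduct.productMap χ ψ'
  have hΨ0 : ∀ s b, Ψ0 (s ⊗ₜ[k⟦X⟧] b) = algebraMap k A (cc s) * ψ b := fun s b => by
    simp only [Ψ0, Algebra.TensorProduct.productMap_apply_tmul]
    rfl
  -- decomposition of elements of `PS k`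
  have hdec : ∀ s : PS k, ∃ s' : PS k, s = algebraMap k⟦X⟧ (PS k) (C (cc s)) + toPS k X * s' := by
    intro s
    obtain ⟨f, rfl⟩ := (toPS k).surjective s
    refine ⟨toPS k (PowerSeries.mk fun n => coeff (n + 1) f), ?_⟩
    rw [hρC, hcc, ← map_mul, ← map_add]
    congr 1
    ext n
    cases n with
    | zero => simp
    | succ n => simp [coeff_succ_X_mul]
  have hdec2 : ∀ x : PS k ⊗[k⟦X⟧] B, ∃ (b : B) (y : PS k ⊗[k⟦X⟧] B),
      x = (1 : PS k) ⊗ₜ b + (toPS k X) • y := by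
    intro x
    induction x using TensorProduct.induction_on with
    | zero => exact ⟨0, 0, by rw [TensorProduct.tmul_zero, smul_zero, add_zero]⟩
    | tmul s b =>
      obtain ⟨s', hs'⟩ := hdec s
      refine ⟨(C (cc s) : k⟦X⟧) • b, s' ⊗ₜ b, ?_⟩
      conv_lhs => rw [hs']
      rw [TensorProduct.add_tmul, TensorProduct.tmul_smul, TensorProduct.smul_tmul',
        TensorProduct.smul_tmul', Algebra.smul_def, mul_one]
      rfl
    | add x y hx hy =>
      obtain ⟨b1, y1, h1⟩ := hx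
      obtain ⟨b2, y2, h2⟩ := hy
      refine ⟨b1 + b2, y1 + y2, ?_⟩
      rw [h1, h2, TensorProduct.tmul_add, smul_add]
      abel
  have hXPS : ∀ y, Ψ0 ((toPS k X) • y) = 0 := by
    intro y
    have : (toPS k X) • y = ((toPS k X) ⊗ₜ[k⟦X⟧] (1 : B)) * y := by
      rw [Algebra.smul_def]
      rfl
    rw [this, map_mul, hΨ0, hcc, constantCoeff_X, map_zero, zero_mul, zero_mul]
  refine ⟨(Ψ0 : (PS k ⊗[k⟦X⟧] B) →+* A), ?_, ?_, ?_, ?_⟩
  · intro a
    obtain ⟨b, rfl⟩ := hsurj a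
    refine ⟨(1 : PS k) ⊗ₜ b, ?_⟩
    change Ψ0 _ = _
    rw [hΨ0, map_one, map_one, one_mul]
  · have := hXPS 1
    rw [Algebra.smul_def, mul_one] at this
    exact this
  · intro x hx
    obtain ⟨b, y, rfl⟩ := hdec2 x
    have h1 : Ψ0 ((1 : PS k) ⊗ₜ b + (toPS k X) • y) = 0 := hx
    rw [map_add, hXPS, add_zero, hΨ0, map_one, map_one, one_mul] at h1
    obtain ⟨b', rfl⟩ := hker b h1
    obtain ⟨s', hs'⟩ := hdec (algebraMap k⟦X⟧ (PS k) X)
    have h2 : cc (algebraMap k⟦X⟧ (PS k) X) = 0 := by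
      change constantCoeff ((toPS k).symm (algebraMap k⟦X⟧ (PS k) X)) = 0
      rw [hρ0]
      exact constantCoeff_X
    rw [h2, map_zero, map_zero, zero_add] at hs'
    refine ⟨s' ⊗ₜ b' + y, ?_⟩
    rw [TensorProduct.tmul_smul, TensorProduct.smul_tmul', Algebra.smul_def, mul_one, hs',
      smul_add, TensorProduct.smul_tmul', smul_eq_mul]
  · intro c
    change Ψ0 ((toPS k (C c)) ⊗ₜ[k⟦X⟧] (1 : B)) = _
    rw [hΨ0, map_one, mul_one, hcc, constantCoeff_C]

end Pool.Agent.H945R3
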